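import Mathlib

/-! Counting lemma for MP_ff6f12_co. -/

set_option autoImplicit false

namespace Pool.Agent.NS35

variable {V : Type*} [DecidableEq V]

/-- at most two vertices of one side of a complete bipartite graph lie outside `X` and `Y` -/
theorem few_out (R B : SimpleGraph V) (X Y : Finset V)
    (hX : ∀ a b c d e : V, a ≠ b → c ≠ d → c ≠ e → d ≠ e → R.Adj a c → R.Adj a d → R.Adj a e →
        R.Adj b c → R.Adj b d → R.Adj b e → a ∈ X)
    (hY : ∀ a b c d e : V, a ≠ b → c ≠ d → c ≠ e → d ≠ e → B.Adj a c → B.Adj a d → B.Adj a e →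
        B.Adj b c → B.Adj b d → B.Adj b e → a ∈ Y)
    (P Q : Finset V) (hQ : 13 ≤ Q.card) (h : ∀ p ∈ P, ∀ q ∈ Q, R.Adj p q ∨ B.Adj p q) :
    (P \ (X ∪ Y)).card ≤ 2 := by
  classical
  by_contra hcon
  push Not at hcon
  obtain ⟨u1, u2, u3, h1, h2, h3, h12, h13, h23⟩ := Finset.two_lt_card_iff.1 hcon
  rw [Finset.mem_sdiff, Finset.mem_union, not_or] at h1 h2 h3
  obtain ⟨p1, x1, y1⟩ := h1
  obtain ⟨p2, x2, y2⟩ := h2
  obtain ⟨p3, x3, y3⟩ := h3
  -- every vertex of `Q` is joined to two of the three vertices in the same colour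
  have key : ∀ q ∈ Q, ∃ z : Fin 3 × Bool,
      (z.1 = 0 → (if z.2 then R.Adj u1 q ∧ R.Adj u2 q else B.Adj u1 q ∧ B.Adj u2 q)) ∧
      (z.1 = 1 → (if z.2 then R.Adj u1 q ∧ R.Adj u3 q else B.Adj u1 q ∧ B.Adj u3 q)) ∧
      (z.1 = 2 → (if z.2 then R.Adj u2 q ∧ R.Adj u3 q else B.Adj u2 q ∧ B.Adj u3 q)) := by
    intro q hq
    rcases h u1 p1 q hq with a1 | a1 <;> rcases h u2 p2 q hq with a2 | a2 <;>
      rcases h u3 p3 q hq with a3 | a3
    · exact ⟨(0, true), by simp [a1, a2]⟩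
    · exact ⟨(0, true), by simp [a1, a2]⟩
    · exact ⟨(1, true), by simp [a1, a3]⟩
    · exact ⟨(2, false), by simp [a2, a3]⟩
    · exact ⟨(2, true), by simp [a2, a3]⟩
    · exact ⟨(1, false), by simp [a1, a3]⟩
    · exact ⟨(0, false), by simp [a1, a2]⟩
    · exact ⟨(0, false), by simp [a1, a2]⟩
  choose! f hf using key
  obtain ⟨z, _, hz⟩ := Finset.exists_lt_card_fiber_of_mul_lt_card_of_maps_to
    (s := Q) (t := (Finset.univ : Finset (Fin 3 × Bool))) (f := f) (n := 2)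
    (fun _ _ => Finset.mem_univ _) (by simp; omega)
  obtain ⟨c, d, e, hc, hd, he, hcd, hce, hde⟩ := Finset.two_lt_card_iff.1 hz
  rw [Finset.mem_filter] at hc hd he
  obtain ⟨hc, fc⟩ := hc
  obtain ⟨hd, fd⟩ := hd
  obtain ⟨he, fe⟩ := he
  have gc := hf c hc
  have gd := hf d hd
  have ge := hf e he
  rw [fc] at gc
  rw [fd] at gd
  rw [fe] at ge
  obtain ⟨z1, z2⟩ := z
  have hz1 : z1 = 0 ∨ z1 = 1 ∨ z1 = 2 := by
    fin_cases z1 <;> simp
  cases z2
  · rcases hz1 with rfl | rfl | rfl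
    · have a := gc.1 rfl
      have b := gd.1 rfl
      have c' := ge.1 rfl
      simp only [Bool.false_eq_true, if_false] at a b c'
      exact y1 (hY u1 u2 c d e h12 hcd hce hde a.1 b.1 c'.1 a.2 b.2 c'.2)
    · have a := gc.2.1 rfl
      have b := gd.2.1 rfl
      have c' := ge.2.1 rfl
      simp only [Bool.false_eq_true, if_false] at a b c'
      exact y1 (hY u1 u3 c d e h13 hcd hce hde a.1 b.1 c'.1 a.2 b.2 c'.2)
    · have a := gc.2.2 rfl
      have b := gd.2.2 rfl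
      have c' := ge.2.2 rfl
      simp only [Bool.false_eq_true, if_false] at a b c'
      exact y2 (hY u2 u3 c d e h23 hcd hce hde a.1 b.1 c'.1 a.2 b.2 c'.2)
  · rcases hz1 with rfl | rfl | rfl
    · have a := gc.1 rfl
      have b := gd.1 rfl
      have c' := ge.1 rfl
      simp only [if_true] at a b c'
      exact x1 (hX u1 u2 c d e h12 hcd hce hde a.1 b.1 c'.1 a.2 b.2 c'.2)
    · have a := gc.2.1 rfl
      have b := gd.2.1 rfl
      have c' := ge.2.1 rfl
      simp only [if_true] at a b c'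
      exact x1 (hX u1 u3 c d e h13 hcd hce hde a.1 b.1 c'.1 a.2 b.2 c'.2)
    · have a := gc.2.2 rfl
      have b := gd.2.2 rfl
      have c' := ge.2.2 rfl
      simp only [if_true] at a b c'
      exact x2 (hX u2 u3 c d e h23 hcd hce hde a.1 b.1 c'.1 a.2 b.2 c'.2)

/-- no `K_(t,t)` in the blue graph of the new colouring -/
theorem no_ktt (t : ℕ) (ht : 13 ≤ t) (R B : SimpleGraph V) (X Y : Finset V)
    (hX : ∀ a b c d e : V, a ≠ b → c ≠ d → c ≠ e → d ≠ e → R.Adj a c → R.Adj a d → R.Adj a e →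
        R.Adj b c → R.Adj b d → R.Adj b e → a ∈ X)
    (hY : ∀ a b c d e : V, a ≠ b → c ≠ d → c ≠ e → d ≠ e → B.Adj a c → B.Adj a d → B.Adj a e →
        B.Adj b c → B.Adj b d → B.Adj b e → a ∈ Y)
    (J : V → V → Prop)
    (hJ : ∀ A C : Finset V, A ⊆ X ∪ Y → C ⊆ X ∪ Y → Disjoint A C → t - 2 ≤ A.card →
      t - 2 ≤ C.card → ∃ a ∈ A, ∃ c ∈ C, J a c)
    (P Q : Finset V) (hP : t ≤ P.card) (hQ : t ≤ Q.card) (hPQ : Disjoint P Q)
    (h : ∀ p ∈ P, ∀ q ∈ Q, R.Adj p q ∨ B.Adj p q)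
    (hn : ∀ p ∈ P, ∀ q ∈ Q, p ∈ X ∪ Y → q ∈ X ∪ Y → ¬ J p q) : False := by
  have h1 := few_out R B X Y hX hY P Q (ht.trans hQ) h
  have h2 := few_out R B X Y hX hY Q P (ht.trans hP) (fun q hq p hp => by
    rcases h p hp q hq with h3 | h3
    · exact Or.inl h3.symm
    · exact Or.inr h3.symm)
  have h3 : t - 2 ≤ (P ∩ (X ∪ Y)).card := by
    have := Finset.card_inter_add_card_sdiff P (X ∪ Y)
    omega
  have h4 : t - 2 ≤ (Q ∩ (X ∪ Y)).card := by
    have := Finset.card_inter_add_card_sdiff Q (X ∪ Y)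
    omega
  obtain ⟨a, ha, c, hc, hac⟩ := hJ _ _ Finset.inter_subset_right Finset.inter_subset_right
    (hPQ.mono Finset.inter_subset_left Finset.inter_subset_left) h3 h4
  rw [Finset.mem_inter] at ha hc
  exact hn a ha.1 c hc.1 ha.2 hc.2 hac

end Pool.Agent.NS35
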