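import Mathlib

/-! Structure lemma for MP_ff6f12_co: closed families of disjoint four cycles. -/

set_option autoImplicit false

namespace Pool.Agent.NS35

variable {V : Type*}

/-- `f` is a four cycle of `R` -/
structure Cyc (R : SimpleGraph V) (f : Fin 4 → V) : Prop where
  inj : Function.Injective f
  e0 : R.Adj (f 0) (f 1)
  e1 : R.Adj (f 1) (f 2)
  e2 : R.Adj (f 2) (f 3)
  e3 : R.Adj (f 3) (f 0)

/-- `m` disjoint four cycles of `R` -/
structure Fam (R : SimpleGraph V) {m : ℕ} (F : Fin m → Fin 4 → V) : Prop where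
  cyc : ∀ i, Cyc R (F i)
  disj : ∀ i i' j j', F i j = F i' j' → i = i'

theorem Fam.update {R : SimpleGraph V} {m : ℕ} {F : Fin m → Fin 4 → V} (hF : Fam R F)
    {D : Fin 4 → V} (hD : Cyc R D) (hdis : ∀ i j j', D j ≠ F i j') (i : Fin m) :
    Fam R (Function.update F i D) := by
  refine ⟨fun i' => ?_, fun i1 i2 j1 j2 h => ?_⟩
  · by_cases h : i' = i
    · subst h
      rw [Function.update_self]
      exact hD
    · rw [Function.update_of_ne h]
      exact hF.cyc i'
  · by_cases h1 : i1 = i <;> by_cases h2 : i2 = i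
    · rw [h1, h2]
    · subst h1
      rw [Function.update_self, Function.update_of_ne h2] at h
      exact absurd h (hdis _ _ _)
    · subst h2
      rw [Function.update_self, Function.update_of_ne h1] at h
      exact absurd h.symm (hdis _ _ _)
    · rw [Function.update_of_ne h1, Function.update_of_ne h2] at h
      exact hF.disj _ _ _ _ h

/-- a cycle which is disjoint from the family is closed -/
theorem closed_of_disj {R : SimpleGraph V} {m : ℕ} {F : Fin m → Fin 4 → V} (hF : Fam R F)
    (hcl : ∀ F : Fin m → Fin 4 → V, Fam R F → ∀ i j y, R.Adj (F i j) y → ∃ i' j', y = F i' j')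
    {D : Fin 4 → V} (hD : Cyc R D) (hdis : ∀ i j j', D j ≠ F i j') (i : Fin m) (j : Fin 4) (y : V)
    (h : R.Adj (D j) y) : ∃ j', y = D j' := by
  have h1 := hcl _ (hF.update hD hdis i) i j y (by rw [Function.update_self]; exact h)
  obtain ⟨i', j', h2⟩ := h1
  by_cases h3 : i' = i
  · subst h3
    rw [Function.update_self] at h2
    exact ⟨j', h2⟩
  · rw [Function.update_of_ne h3] at h2
    obtain ⟨i2, j2, h4⟩ := hcl F hF i' j' (D j) (by rw [← h2]; exact h.symm)
    exact absurd h4 (hdis _ _ _)

/-- if there is a cycle which is disjoint from the family then every cycle of the family is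
closed -/
theorem closed_mem {R : SimpleGraph V} {m : ℕ} {F : Fin m → Fin 4 → V} (hF : Fam R F)
    (hcl : ∀ F : Fin m → Fin 4 → V, Fam R F → ∀ i j y, R.Adj (F i j) y → ∃ i' j', y = F i' j')
    {D : Fin 4 → V} (hD : Cyc R D) (hdis : ∀ i j j', D j ≠ F i j') (i : Fin m) (j : Fin 4) (y : V)
    (h : R.Adj (F i j) y) : ∃ j', y = F i j' := by
  obtain ⟨i', j', h2⟩ := hcl F hF i j y h
  by_cases h3 : i' = i
  · subst h3
    exact ⟨j', h2⟩
  · have h4 : R.Adj (Function.update F i D i' j') (F i j) := by
      rw [Function.update_of_ne h3, ← h2]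
      exact h.symm
    obtain ⟨i2, j2, h5⟩ := hcl _ (hF.update hD hdis i) i' j' _ h4
    by_cases h6 : i2 = i
    · subst h6
      rw [Function.update_self] at h5
      exact absurd h5.symm (hdis _ _ _)
    · rw [Function.update_of_ne h6] at h5
      exact absurd (hF.disj _ _ _ _ h5).symm h6

theorem cyc_of {R : SimpleGraph V} {a b c d : V} (hab : a ≠ b) (hcd : c ≠ d)
    (h1 : R.Adj a c) (h2 : R.Adj b c) (h3 : R.Adj a d) (h4 : R.Adj b d) :
    Cyc R ![a, c, b, d] := by
  refine ⟨?_, h1, h2.symm, h4, h3.symm⟩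
  intro i j h
  have n1 := h1.ne
  have n2 := h2.ne
  have n3 := h3.ne
  have n4 := h4.ne
  fin_cases i <;> fin_cases j <;> simp at h <;>
    first | rfl | exact absurd h (by assumption) | exact absurd h.symm (by assumption)

/-- STRUCTURE -/
theorem str [DecidableEq V] (R : SimpleGraph V) {m : ℕ} (hm : 0 < m) (F : Fin m → Fin 4 → V)
    (hF : Fam R F)
    (hcl : ∀ F : Fin m → Fin 4 → V, Fam R F → ∀ i j y, R.Adj (F i j) y → ∃ i' j', y = F i' j') :
    ∃ X : Finset V, X.card ≤ 4 * m ∧ (∀ x ∈ X, ∀ y, R.Adj x y → y ∈ X) ∧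
      ∀ a b c d e : V, a ≠ b → c ≠ d → c ≠ e → d ≠ e → R.Adj a c → R.Adj a d → R.Adj a e →
        R.Adj b c → R.Adj b d → R.Adj b e → a ∈ X := by
  by_cases hex : ∃ D : Fin 4 → V, Cyc R D ∧ ∀ i j j', D j ≠ F i j'
  · obtain ⟨D, hD, hdis⟩ := hex
    refine ⟨∅, by simp, by simp, ?_⟩
    intro a b c d e hab hcd hce hde h1 h2 h3 h4 h5 h6
    exfalso
    have hC := cyc_of hab hcd h1 h4 h2 h5
    by_cases hC' : ∀ i j j', (![a, c, b, d] : Fin 4 → V) j ≠ F i j'
    · obtain ⟨j', h7⟩ := closed_of_disj hF hcl hC hC' ⟨0, hm⟩ 0 e (by simpa using h3)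
      have n1 := h3.ne
      have n2 := h6.ne
      fin_cases j' <;> simp at h7
      · exact n1 h7.symm
      · exact hce h7.symm
      · exact n2 h7.symm
      · exact hde h7.symm
    · push Not at hC'
      obtain ⟨i, j, j', h7⟩ := hC'
      have hcm : ∀ x, (∃ j', x = F i j') → ∀ y, R.Adj x y → ∃ j', y = F i j' := by
        rintro x ⟨j1, rfl⟩ y hy
        exact closed_mem hF hcl hD hdis i j1 y hy
      -- all five vertices lie in the cycle `F i`
      have ha : ∃ j', a = F i j' := by
        fin_cases j <;> simp at h7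
        · exact ⟨j', h7⟩
        · exact hcm c ⟨j', h7⟩ a h1.symm
        · exact hcm c (hcm b ⟨j', h7⟩ c h4) a h1.symm
        · exact hcm d ⟨j', h7⟩ a h2.symm
      have hc := hcm a ha c h1
      have hd := hcm a ha d h2
      have he := hcm a ha e h3
      have hb := hcm c hc b h4.symm
      have hsub : ({a, b, c, d, e} : Finset V) ⊆ Finset.univ.image (F i) := by
        intro x hx
        simp only [Finset.mem_insert, Finset.mem_singleton] at hx
        rw [Finset.mem_image]
        rcases hx with rfl | rfl | rfl | rfl | rfl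
        · obtain ⟨j1, h⟩ := ha
          exact ⟨j1, Finset.mem_univ _, h.symm⟩
        · obtain ⟨j1, h⟩ := hb
          exact ⟨j1, Finset.mem_univ _, h.symm⟩
        · obtain ⟨j1, h⟩ := hc
          exact ⟨j1, Finset.mem_univ _, h.symm⟩
        · obtain ⟨j1, h⟩ := hd
          exact ⟨j1, Finset.mem_univ _, h.symm⟩
        · obtain ⟨j1, h⟩ := he
          exact ⟨j1, Finset.mem_univ _, h.symm⟩
      have hcard := Finset.card_le_card hsub
      have h8 : (Finset.univ.image (F i)).card ≤ 4 := by
        refine Finset.card_image_le.trans ?_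
        simp
      have h9 : ({a, b, c, d, e} : Finset V).card = 5 := by
        have n1 := h1.ne
        have n2 := h2.ne
        have n3 := h3.ne
        have n4 := h4.ne
        have n5 := h5.ne
        have n6 := h6.ne
        rw [Finset.card_insert_of_notMem, Finset.card_insert_of_notMem,
          Finset.card_insert_of_notMem, Finset.card_insert_of_notMem, Finset.card_singleton]
        · simpa using hde
        · simp only [Finset.mem_insert, Finset.mem_singleton, not_or]
          exact ⟨hcd, hce⟩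
        · simp only [Finset.mem_insert, Finset.mem_singleton, not_or]
          exact ⟨n4, n5, n6⟩
        · simp only [Finset.mem_insert, Finset.mem_singleton, not_or]
          exact ⟨hab, n1, n2, n3⟩
      omega
  · push Not at hex
    refine ⟨Finset.univ.image (fun p : Fin m × Fin 4 => F p.1 p.2), ?_, ?_, ?_⟩
    · refine Finset.card_image_le.trans ?_
      simp [mul_comm]
    · intro x hx y hy
      rw [Finset.mem_image] at hx
      obtain ⟨⟨i, j⟩, _, rfl⟩ := hx
      obtain ⟨i', j', h⟩ := hcl F hF i j y hy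
      rw [Finset.mem_image]
      exact ⟨(i', j'), Finset.mem_univ _, h.symm⟩
    · intro a b c d e hab hcd hce hde h1 h2 h3 h4 h5 h6
      obtain ⟨i, j, j', h7⟩ := hex _ (cyc_of hab hcd h1 h4 h2 h5)
      have hcm : ∀ x, (∃ i j, x = F i j) → ∀ y, R.Adj x y → ∃ i j, y = F i j := by
        rintro x ⟨i1, j1, rfl⟩ y hy
        exact hcl F hF i1 j1 y hy
      have ha : ∃ i j, a = F i j := by
        fin_cases j <;> simp at h7
        · exact ⟨i, j', h7⟩
        · exact hcm c ⟨i, j', h7⟩ a h1.symm
        · exact hcm c (hcm b ⟨i, j', h7⟩ c h4) a h1.symm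
        · exact hcm d ⟨i, j', h7⟩ a h2.symm
      obtain ⟨i1, j1, h8⟩ := ha
      rw [Finset.mem_image]
      exact ⟨(i1, j1), Finset.mem_univ _, h8.symm⟩

end Pool.Agent.NS35
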